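import Pool.Agent.Helper78.ME.Wk

/-! # Packet WH (MP_c578c8_lc, campaign ME of helper78) -/

namespace Pool.Agent.Helper79.ME

open Pool.Agent.Helper65.LinSpace Finset
open Pool.Agent.Helper78 Pool.Agent.Helper78.ME

/-- **Packet WH.** -/
theorem WH (hLKT : LKT_stmt) : WH_stmt := by
  intro m hm b x
  obtain ⟨L, hL⟩ : ∃ L, L = m.e * (m.e * m.d) := ⟨_, rfl⟩
  obtain ⟨y, hy⟩ : ∃ y, y = tab (2 ^ m.σ) L fun t => (m.conf (b * L + t + 1)).1 := ⟨_, rfl⟩
  obtain ⟨q, hq⟩ : ∃ q, q = tab (2 ^ m.s) m.N fun c => (m.conf (b * L)).2 (m.cel x c) := ⟨_, rfl⟩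
  have hLpos : 0 < L := by
    rw [hL]
    exact Nat.mul_pos hm.he (Nat.mul_pos hm.he hm.hd)
  have hz : m.mach.zH b x = y + 2 ^ (m.e * m.wn) * ((m.conf (b * L)).1 + 2 ^ m.σ * q) := by
    rw [hy, hq, hL]
    rfl
  have htn : m.mach.tn (b + 1) x = (m.conf (b * L + L)).1 + 2 ^ m.σ *
      tab (2 ^ m.s) m.N fun c => (m.conf (b * L + L)).2 (m.cel x c) := by
    have h1 : b * L + L = (b + 1) * (m.e * (m.e * m.d)) := by rw [hL]; ring
    rw [h1]
    rfl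
  have hylt : y < 2 ^ (m.e * m.wn) := by
    have h1 : 2 ^ (m.e * m.wn) = (2 ^ m.σ) ^ L := by
      rw [← pow_mul, hL]
      congr 1
      unfold Wk.wn
      ring
    rw [h1, hy]
    exact tab_lt fun i _ => hm.ev_lt _
  have hmod : m.mach.zH b x % 2 ^ (m.e * m.wn) = y := by
    rw [hz, Nat.add_mul_mod_self_left, Nat.mod_eq_of_lt hylt]
  have hdiv : m.mach.zH b x / 2 ^ (m.e * m.wn) = (m.conf (b * L)).1 + 2 ^ m.σ * q := by
    rw [hz, Nat.add_mul_div_left _ _ (by positivity), Nat.div_eq_of_lt hylt, zero_add]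
  have hdig : ∀ t < L, dig (2 ^ m.σ) y t = (m.conf (b * L + t + 1)).1 := by
    intro t ht
    rw [hy]
    exact dig_tab (fun i _ => hm.ev_lt _) ht
  have hev : m.evA ((m.conf (b * L)).1) y L = (m.conf (b * L + L)).1 := by
    unfold Wk.evA ifz
    rw [if_neg hLpos.ne', hdig (L - 1) (by omega)]
    congr 2
    omega
  have hlt := hm.ev_lt (b * L)
  have hH : m.H x (m.mach.zH b x) = m.evA (m.mach.zH b x / 2 ^ (m.e * m.wn) % 2 ^ m.σ)
      (m.mach.zH b x % 2 ^ (m.e * m.wn)) L + 2 ^ m.σ *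
      tab (2 ^ m.s) m.N fun c => m.lk (m.mach.zH b x % 2 ^ (m.e * m.wn)) L (m.cel x c)
      (dig (2 ^ m.s) (m.mach.zH b x / 2 ^ (m.e * m.wn) / 2 ^ m.σ) c) := by
    rw [hL]
    rfl
  rw [hH, htn, hmod, hdiv, Nat.add_mul_mod_self_left, Nat.mod_eq_of_lt hlt,
    Nat.add_mul_div_left _ _ (by positivity), Nat.div_eq_of_lt hlt, zero_add, hev]
  congr 2
  refine tab_congr fun c hc => ?_
  have h1 : dig (2 ^ m.s) q c = (m.conf (b * L)).2 (m.cel x c) := by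
    rw [hq]
    exact dig_tab (fun i _ => hm.mem_lt _ _) hc
  rw [h1]
  have h2 := hLKT m hm b L y (by rw [← hL]; exact hdig) L le_rfl (m.cel x c)
  rw [← hL] at h2
  exact h2

end Pool.Agent.Helper79.ME
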