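import Pool.Agent.Helper78.ME.Goals

/-! # Packet NOK (MP_c578c8_lc, campaign ME of helper78) -/

namespace Pool.Agent.Helper79.ME

open Pool.Agent.Helper65.LinSpace Pool.Agent.Helper78.Mpc Pool.Agent.Helper28.Ram Finset
open Pool.Agent.Helper78.ME

/-- **Packet NOK.** -/
theorem NOK (hDEC : DEC_stmt) (hGEO : GEO_stmt) (hMOV : MOV_stmt) : NOK_stmt := by
  intro m hκ hd he hk
  have hmem : ∀ t p, (m.wk.conf t).2 p < 2 ^ (m.S + 1) := by
    intro t
    induction t with
    | zero =>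
      intro p
      change 1 < 2 ^ (m.S + 1)
      exact Nat.one_lt_two_pow (by omega)
    | succ t ih =>
      intro p
      change Function.update (m.wk.conf t).2 (m.wk.ap (m.wk.conf t).1)
        (m.wl (m.nx (m.wk.conf t).1 ((m.wk.conf t).2 (m.wk.ap (m.wk.conf t).1)))) p < _
      by_cases h : p = m.wk.ap (m.wk.conf t).1
      · rw [h, Function.update_self]
        exact Nat.mod_lt _ (by positivity)
      · rw [Function.update_of_ne h]
        exact ih p
  have hmov : ∀ t, m.nx (m.wk.conf t).1 ((m.wk.conf t).2 (m.wk.ap (m.wk.conf t).1)) < 2 ^ m.σ ∧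
      m.pos (m.wk.conf (t + 1)).1 m.k = m.pos (m.wk.conf t).1 (m.aj (m.wk.conf t).1) ∧
      ∀ j < m.k, ∀ i < m.D, m.cq (m.wk.conf (t + 1)).1 j i ≤ m.cq (m.wk.conf t).1 j i + 1 ∧
        m.cq (m.wk.conf t).1 j i ≤ m.cq (m.wk.conf (t + 1)).1 j i + 1 := by
    intro t
    obtain ⟨h1, h2, h3, -⟩ := hMOV m (m.wk.conf t).1 ((m.wk.conf t).2 (m.wk.ap (m.wk.conf t).1)) hk
      (hmem t _)
    exact ⟨h1, h2, h3⟩
  have hfar : ∀ t r, ∀ j < m.k, ∀ i < m.D,
      m.cq (m.wk.conf (t + r)).1 j i ≤ m.cq (m.wk.conf t).1 j i + r ∧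
      m.cq (m.wk.conf t).1 j i ≤ m.cq (m.wk.conf (t + r)).1 j i + r := by
    intro t r
    induction r with
    | zero =>
      intro j hj i hi
      exact ⟨le_rfl, le_rfl⟩
    | succ r ih =>
      intro j hj i hi
      have h1 := ih j hj i hi
      have h2 := (hmov (t + r)).2.2 j hj i hi
      rw [← add_assoc]
      constructor <;> omega
  refine ⟨?_, hd, he, hk, ?_, ?_, hmem, ?_, ?_, ?_, ?_⟩
  · change 0 < m.σ
    unfold Prm.σ
    omega
  · change 0 < m.κ * m.D + 1
    omega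
  · intro t
    cases t with
    | zero =>
      change m.q0 < 2 ^ m.σ
      refine (hDEC.mk_lt m _ _ _ (capN_lt _ _) (by positivity) ?_).1
      intro j _ i _
      exact Nat.pow_lt_pow_right (by norm_num) (by omega)
    | succ t => exact (hmov t).1
  · intro v
    exact hDEC.aj_lt m v hk
  · intro t
    exact (hmov t).2.1
  · intro p
    exact (hGEO m hd).1 p
  · intro t r j hr hj
    have hr' : r < m.d := hr
    refine (hGEO m hd).2 (m.cq (m.wk.conf (t + r)).1 j) (m.cq (m.wk.conf t).1 j) ?_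
    intro i hi
    have h1 := hfar t r j hj i hi
    exact ⟨hDEC.cq_lt m _ j i, hDEC.cq_lt m _ j i, by omega, by omega⟩

end Pool.Agent.Helper79.ME
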